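import Pool.Agent.H.MP_240e45_ag.C

set_option autoImplicit false

namespace Pool.Agent.Results.MP_240e45_ag.No

open Pool.Agent.H.MP_be29a0_al

def Val {g n : ℕ} (X : Fin g → Matrix (Fin n) (Fin n) ℂ) (s : Ex ℂ g)
    (A : Matrix (Fin n) (Fin n) ℂ) : Prop := Ev X s A

def Same {g : ℕ} (e s : Ex ℂ g) : Prop :=
  ∀ (n : ℕ) (X : Fin g → Matrix (Fin n) (Fin n) ℂ) (A B : Matrix (Fin n) (Fin n) ℂ),
    Val X e A → Val X s B → A = B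

def Lev {g : ℕ} (e : Ex ℂ g) (n : ℕ) (l : ℂ) : Set (Fin g × Fin n × Fin n → ℂ) :=
  {z | ∃ (s : Ex ℂ g) (B : Matrix (Fin n) (Fin n) ℂ), Same e s ∧
    Val (fun t => Matrix.of fun a b => z (t, a, b)) s B ∧
      (B - l • (1 : Matrix (Fin n) (Fin n) ℂ)).det = 0}

def Mob (f : RatFunc ℂ) : Prop :=
  ∃ a b c d : ℂ, a * d - b * c ≠ 0 ∧
    f = (RatFunc.C a * RatFunc.X + RatFunc.C b) / (RatFunc.C c * RatFunc.X + RatFunc.C d)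

def Dec {g : ℕ} (e : Ex ℂ g) : Prop :=
  ∃ (f : RatFunc ℂ) (s : Ex ℂ g), ¬ Mob f ∧
    (∃ (n : ℕ) (X : Fin g → Matrix (Fin n) (Fin n) ℂ) (S : Matrix (Fin n) (Fin n) ℂ),
      0 < n ∧ Val X s S ∧ IsUnit (Polynomial.aeval S f.denom)) ∧
    ∀ (n : ℕ) (X : Fin g → Matrix (Fin n) (Fin n) ℂ) (S A : Matrix (Fin n) (Fin n) ℂ),
      Val X s S → IsUnit (Polynomial.aeval S f.denom) → Val X e A →
        A * Polynomial.aeval S f.denom = Polynomial.aeval S f.num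

theorem result : ∃ e : Ex ℂ 2,
    (∃ (n : ℕ) (X : Fin 2 → Matrix (Fin n) (Fin n) ℂ) (A : Matrix (Fin n) (Fin n) ℂ),
      0 < n ∧ Val X e A) ∧
    ¬ Dec e ∧
    ∀ (N : ℕ) (Λ : Finset ℂ), ∃ n, N ≤ n ∧ 0 < n ∧ ∃ l, l ∉ Λ ∧ (Lev e n l).Nonempty ∧
      ¬ (MvPolynomial.vanishingIdeal ℂ (Lev e n l)).IsPrime := by
  refine ⟨ee 1, ?_, ?_, ?_⟩
  · obtain ⟨x, A, h⟩ := Pool.Agent.H.MP_240e45_ag.nondeg
    exact ⟨3, x, A, by norm_num, h⟩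
  · rintro ⟨f, s, h1, ⟨n, Z, S, hn, h2, h3⟩, H⟩
    exact h1 (Pool.Agent.H.MP_240e45_ag.nodec' f s n hn Z S h2 h3 H)
  · intro N Λ
    obtain ⟨i, j, hb⟩ := Pool.Agent.H.MP_240e45_ag.base (N + 1) (by omega)
    refine ⟨(N + 1) * 3, by omega, by omega,
      Pool.Agent.H.MP_240e45_ag.red hb (Lev (ee 1) ((N + 1) * 3)) ?_ Λ⟩
    intro l z A hA
    constructor
    · rintro ⟨s, B, h1, h2, h3⟩
      rw [h1 _ _ _ _ hA h2]; exact h3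
    · intro h
      exact ⟨_, A, fun _ _ _ _ h1 h2 => Ev.uniq h1 h2, hA, h⟩

end Pool.Agent.Results.MP_240e45_ag.No
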